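import Pool.Agent.AEC.StmtsZ

/-!
# Squad AEC (problem MP_23d7af_lc): row SPL (splitting of a diagram)
-/

open FirstOrder FirstOrder.Language Cardinal Set

universe u

namespace Pool.Agent.AEC.H20

theorem pts_dg {L : FirstOrder.Language.{u, u}} {Ω : Type u} (A : Type u) [L.Structure A]
    (φ : A → Ω) : pts (dg (L := L) A φ) = range φ := by
  ext x
  exact Iff.rfl

theorem pts_plc {L : FirstOrder.Language.{u, u}} {κ : Cardinal.{u}} {K : AEC L κ} {Ω : Type u}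
    {D : Set (Fact L Ω)} (P : K.Plc D) : pts D = range P.φ := by
  have h : pts (dg (L := L) P.A.α P.φ) = pts D := congrArg pts P.eq
  exact h.symm.trans (pts_dg _ _)

theorem mk_pts {L : FirstOrder.Language.{u, u}} {κ : Cardinal.{u}} {K : AEC L κ} {Ω : Type u}
    {D : Set (Fact L Ω)} (P : K.Plc D) : #(pts D) = #P.A.α := by
  rw [pts_plc P]
  exact Cardinal.mk_range_eq _ P.inj

theorem spl (hDGE : DgeStmt.{u}) (hEXR : ExrStmt.{u}) (hPLE : PleStmt.{u}) : SplStmt.{u} := by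
  intro L κ K Ω D0 D P0 hΩ hE hlt hnb
  obtain ⟨h1, -, -, -⟩ := hEXR L κ K Ω
  obtain ⟨P⟩ : Nonempty (K.Plc D) := by
    obtain ⟨_, P, _, _⟩ := hE
    exact ⟨P⟩
  obtain ⟨i, hi⟩ := h1 D0 D hE P0 P
  have hPA : #P.A.α < #Ω := by
    rw [← mk_pts P]
    exact hlt
  have hb := hnb P.A i hPA
  unfold AEC.IsBase at hb
  push Not at hb
  obtain ⟨B₁, B₂, f₁, f₂, c₁, c₂, ham⟩ := hb
  have hcompl : #((range P.φ)ᶜ : Set Ω) = #Ω := by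
    have hinf : Infinite Ω := Cardinal.infinite_iff.2 hΩ
    apply Cardinal.mk_compl_of_infinite
    rw [Cardinal.mk_range_eq _ P.inj]
    exact hPA
  obtain ⟨ψ₁, i₁, e₁⟩ := hPLE P.A.α B₁.α Ω f₁ P.φ f₁.injective P.inj
    (by rw [hcompl, c₁]; exact hPA.le)
  obtain ⟨ψ₂, i₂, e₂⟩ := hPLE P.A.α B₂.α Ω f₂ P.φ f₂.injective P.inj
    (by rw [hcompl, c₂]; exact hPA.le)
  let Q₁ : K.Plc (dg (L := L) B₁.α ψ₁) := ⟨B₁, ψ₁, i₁, rfl⟩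
  let Q₂ : K.Plc (dg (L := L) B₂.α ψ₂) := ⟨B₂, ψ₂, i₂, rfl⟩
  refine ⟨dg (L := L) B₁.α ψ₁, dg (L := L) B₂.α ψ₂, ⟨P, Q₁, f₁, e₁⟩, ⟨P, Q₂, f₂, e₂⟩, ?_, ?_, ?_⟩
  · rw [mk_pts Q₁, mk_pts P]
    exact c₁
  · rw [mk_pts Q₂, mk_pts P]
    exact c₂
  · intro Z P₁ P₂ w₁ w₂
    by_contra hcon
    push Not at hcon
    obtain ⟨g₁, hg₁⟩ := hDGE L Ω B₁.α P₁.A.α ψ₁ P₁.φ i₁ P₁.inj P₁.eq.symm
    obtain ⟨g₂, hg₂⟩ := hDGE L Ω B₂.α P₂.A.α ψ₂ P₂.φ i₂ P₂.inj P₂.eq.symm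
    obtain ⟨x, hx⟩ := ham Z (w₁.comp (AEC.Hom.ofEquiv g₁)) (w₂.comp (AEC.Hom.ofEquiv g₂))
    apply hx
    have hx1 : P₁.φ (g₁ (f₁ x)) = P.φ x := by rw [hg₁, e₁]
    have hx2 : P₂.φ (g₂ (f₂ x)) = P.φ x := by rw [hg₂, e₂]
    have hmem : P₁.φ (g₁ (f₁ x)) ∈ pts D := by
      rw [hx1, pts_plc P]
      exact mem_range_self x
    exact hcon (g₁ (f₁ x)) (g₂ (f₂ x)) (hx1.trans hx2.symm) hmem

end Pool.Agent.AEC.H20
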